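import Pool.Agent.H86.FM.GFacts

/-!
# Zone one of the maximal function: macroscopic inequalities for `G`

Everything is about real numbers `a ≤ x ≤ b` and the function `G`. The quantity
`(b-x) G a + (x-a) G b + (b-a)^2` is `(b-a)` times the cost of the chord; `x = r^2`, `G x = 2 r`.
-/

set_option autoImplicit false

namespace Pool.Agent.H14.Z1

open Finset Pool.Agent.H14RC Pool.Agent.H86.FM

/-- Chord inequality for a tuple. -/
lemma chord_sum {m : ℕ} (x : Fin m → ℝ) {a b X : ℝ} (ha : 0 ≤ a) (hb : b ≤ 1)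
    (hx : ∀ i, a ≤ x i ∧ x i ≤ b) (hX : ∑ i, x i = m * X) :
    m * ((b - X) * G a + (X - a) * G b) ≤ (b - a) * ∑ i, G (x i) := by
  have h1 : ∑ i, ((b - x i) * G a + (x i - a) * G b) ≤ ∑ i, (b - a) * G (x i) :=
    sum_le_sum fun i _ => G_conc3 ha (hx i).1 (hx i).2 hb
  rw [← mul_sum, sum_add_distrib, ← sum_mul, ← sum_mul, sum_sub_distrib, sum_sub_distrib, hX] at h1
  simp only [sum_const, card_univ, Fintype.card_fin, nsmul_eq_mul] at h1
  nlinarith [h1]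

lemma mean_bounds {m : ℕ} (hm : 1 ≤ m) (x : Fin m → ℝ) {a b X : ℝ}
    (hx : ∀ i, a ≤ x i ∧ x i ≤ b) (hX : ∑ i, x i = m * X) : a ≤ X ∧ X ≤ b := by
  have hm' : (0 : ℝ) < m := by exact_mod_cast hm
  have h1 : ∑ _i : Fin m, a ≤ ∑ i, x i := sum_le_sum fun i _ => (hx i).1
  have h2 : ∑ i, x i ≤ ∑ _i : Fin m, b := sum_le_sum fun i _ => (hx i).2
  simp only [sum_const, card_univ, Fintype.card_fin, nsmul_eq_mul] at h1 h2
  rw [hX] at h1 h2
  exact ⟨le_of_mul_le_mul_left h1 hm', le_of_mul_le_mul_left h2 hm'⟩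

/-- `G (r^2) = 2 r` for `8/27 ≤ r ≤ 1/2`. -/
lemma G_sq {r : ℝ} (h1 : 8 / 27 ≤ r) (h2 : r ≤ 1 / 2) : G (r ^ 2) = 2 * r := by
  have h := G_eq_pow 1 (r := r) (by norm_num; linarith) (by norm_num; linarith) (by nlinarith)
  norm_num at h
  exact h

/-- `G (r^2) ≤ 2 r`. -/
lemma G_sq_le {r : ℝ} (h0 : 0 ≤ r) (h1 : r ≤ 1) : G (r ^ 2) ≤ 2 * r := by
  have h := G_le 1 (x := r ^ 2) (by positivity) (by nlinarith)
  have h2 := a_pow 1 (r := r) h0
  norm_num at h2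
  rw [h2] at h
  exact h

lemma G_one_of {x : ℝ} (h1 : 1 / 4 ≤ x) (h2 : x ≤ 3 / 4) : G x = 1 := by
  apply le_antisymm (G_le_one (by linarith) (by linarith))
  refine le_trans ?_ (w_le_G (by linarith) (by linarith))
  exact le_min le_rfl (le_min (by linarith) (by linarith))

/-- `27/4 a ≤ G a` for `a ≤ (2/3)^6`. -/
lemma G_ge_chord {a : ℝ} (h0 : 0 ≤ a) (h1 : a ≤ 64 / 729) : 27 / 4 * a ≤ G a := by
  have h := G_conc3 (u := 0) (v := a) (w := 64 / 729) le_rfl h0 h1 (by norm_num)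
  have h2 := G_sq (r := 8 / 27) le_rfl (by norm_num)
  norm_num at h2
  rw [G_zero, h2] at h
  linarith

/-- `G a ≤ 16/27` for `a ≤ (2/3)^6`. -/
lemma G_le_small {a : ℝ} (h0 : 0 ≤ a) (h1 : a ≤ 64 / 729) : G a ≤ 16 / 27 := by
  have h := G_le 1 (x := a) h0 (by linarith)
  have h2 := a_mono 1 h0 h1
  have h3 := a_pow 1 (r := 8 / 27) (by norm_num)
  norm_num at h3
  linarith

lemma G_ge_four {a : ℝ} (h0 : 0 ≤ a) (h1 : a ≤ 1 / 4) : 4 * a ≤ G a := by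
  refine le_trans ?_ (w_le_G h0 (by linarith))
  exact le_min (by linarith) (le_min le_rfl (by linarith))

lemma G_ge_four' {b : ℝ} (h0 : 3 / 4 ≤ b) (h1 : b ≤ 1) : 4 * (1 - b) ≤ G b := by
  refine le_trans ?_ (w_le_G (by linarith) h1)
  exact le_min (by linarith) (le_min (by linarith) le_rfl)

/-! ### The polynomial inequalities -/

private lemma key1 {b h : ℝ} (hb0 : 33 / 100 ≤ b) (hb : b ≤ 1 / 2) (hh0 : 0 ≤ h) (hh : h ≤ b - 33 / 100) :
    h * (27 / 4 * (2 * b - h) - 2) ^ 2 ≤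
      199 / 50 * (2 * (2 * b - h) * b * (27 / 8 * b - 1)) := by
  obtain ⟨d, hd⟩ : ∃ d, d = b - 33 / 100 - h := ⟨_, rfl⟩
  have hd0 : 0 ≤ d := by linarith
  have e : h = b - 33 / 100 - d := by linarith
  have h1 : h * (27 / 4 * (2 * b - h) - 2) ^ 2 ≤
      (b - 33 / 100) * (27 / 4 * (b + 33 / 100) - 2) ^ 2 := by
    obtain ⟨A, hA⟩ : ∃ A, A = 27 / 4 * (b + 33 / 100) - 2 := ⟨_, rfl⟩
    have e1 : 27 / 4 * (2 * b - h) - 2 = A + 27 / 4 * d := by rw [hA, hd]; ring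
    have e2 : b - 33 / 100 = h + d := by linarith
    have hA1 : 27 / 2 * (h + d) + 13 / 10 ≤ A := by rw [hA]; linarith
    rw [e1, e2, ← hA]
    have h2 : 27 / 2 * h * A + 729 / 16 * (h * d) ≤ A ^ 2 := by nlinarith [mul_nonneg hh0 hd0]
    nlinarith [mul_le_mul_of_nonneg_left h2 hd0]
  have h3 : 199 / 50 * (2 * (b + 33 / 100) * b * (27 / 8 * b - 1)) ≤
      199 / 50 * (2 * (2 * b - h) * b * (27 / 8 * b - 1)) := by
    have : 0 ≤ b * (27 / 8 * b - 1) := mul_nonneg (by linarith) (by linarith)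
    nlinarith [mul_nonneg hd0 this]
  have h4 : (b - 33 / 100) * (27 / 4 * (b + 33 / 100) - 2) ^ 2 ≤
      199 / 50 * (2 * (b + 33 / 100) * b * (27 / 8 * b - 1)) := by
    nlinarith [mul_nonneg (show 0 ≤ b - 33/100 by linarith) (show 0 ≤ 1/2 - b by linarith)]
  linarith

/-- Case A2. -/
lemma poly_A2 {a b r g : ℝ} (ha1 : a ≤ 64 / 729) (hr : 33 / 100 ≤ r) (hrb : r ≤ b)
    (hb : b ≤ 1 / 2) (hg : 27 / 4 * a ≤ g) :
    (b ^ 2 - a) * (2 * r + 1 / 10000) ≤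
      (b ^ 2 - r ^ 2) * g + (r ^ 2 - a) * (2 * b) + (b ^ 2 - a) ^ 2 := by
  obtain ⟨h, hh⟩ : ∃ h, h = b - r := ⟨_, rfl⟩
  obtain ⟨D, hD⟩ : ∃ D, D = b ^ 2 - a := ⟨_, rfl⟩
  have hh0 : 0 ≤ h := by linarith
  have hD0 : 211 / 10000 ≤ D := by rw [hD]; nlinarith
  have hb0 : 0 ≤ b ^ 2 - r ^ 2 := by nlinarith
  have h1 : (b ^ 2 - r ^ 2) * (27 / 4 * a) ≤ (b ^ 2 - r ^ 2) * g := mul_le_mul_of_nonneg_left hg hb0
  have key := key1 (b := b) (h := h) (by linarith) hb hh0 (by linarith)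
  have h2 : 0 ≤ 199 / 200 * D ^ 2 - D * (h * (27 / 4 * (2 * b - h) - 2)) +
      h * (2 * (2 * b - h) * b * (27 / 8 * b - 1)) := by
    have h3 : 0 ≤ h * (199 / 50 * (2 * (2 * b - h) * b * (27 / 8 * b - 1)) -
        h * (27 / 4 * (2 * b - h) - 2) ^ 2) := mul_nonneg hh0 (by linarith)
    nlinarith [sq_nonneg (199 / 100 * D - h * (27 / 4 * (2 * b - h) - 2))]
  have h4 : a = b ^ 2 - D := by linarith
  have h5 : r = b - h := by linarith
  rw [h5, h4] at h1 ⊢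
  nlinarith

/-- B1, small a -/
private lemma poly_B1 {a b r g : ℝ} (ha : 1 / 100 ≤ a) (ha1 : a ≤ 64 / 729) (hr : 33 / 100 ≤ r) (hr1 : r ≤ 473 / 1000)
    (hb : b ≤ 3 / 4) (hg : 27 / 4 * a ≤ g) (hg1 : g ≤ 16 / 27) :
    (b - a) * (2 * r + 1 / 10000) ≤ (b - r ^ 2) * g + (r ^ 2 - a) * 1 + (b - a) ^ 2 := by
  have h1 : 0 ≤ (g - 27 / 4 * a) * (16 / 27 - g) := mul_nonneg (by linarith) (by linarith)
  have h2 : 2211 / 10000 ≤ r - r ^ 2 := by nlinarith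
  have h3 : 1 / 10000 * (3 / 4) ≤ g * (r + a - r ^ 2) - g ^ 2 / 4 - a := by
    have h4 : g * (2211 / 10000) ≤ g * (r - r ^ 2) := by
      apply mul_le_mul_of_nonneg_left h2; linarith
    have h5 : 1 / 10000 * (3 / 4) ≤ g * (2211 / 10000 + a) - g ^ 2 / 4 - a := by
      nlinarith [mul_nonneg (show 0 ≤ a - 1/100 by linarith) (show 0 ≤ 64/729 - a by linarith),
        mul_nonneg (show 0 ≤ a - 1/100 by linarith) (show 0 ≤ g - 27/4*a by linarith),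
        mul_nonneg (show 0 ≤ 64/729 - a by linarith) (show 0 ≤ g - 27/4*a by linarith)]
    nlinarith
  nlinarith [sq_nonneg (b - a - r + g / 2)]

/-- B1, large a -/
private lemma poly_B1' {s b r : ℝ} (hs : 8 / 27 ≤ s) (hsr : s ≤ r) (hr1 : r ≤ 473 / 1000)
    (hb0 : 1 / 4 ≤ b) (hb : b ≤ 3 / 4) :
    (b - s ^ 2) * (2 * r + 1 / 10000) ≤ (b - r ^ 2) * (2 * s) + (r ^ 2 - s ^ 2) * 1 + (b - s ^ 2) ^ 2 := by
  obtain ⟨u, hu⟩ : ∃ u, u = r - s := ⟨_, rfl⟩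
  obtain ⟨w, hw⟩ : ∃ w, w = 1 / 2 - s := ⟨_, rfl⟩
  obtain ⟨t, ht⟩ : ∃ t, t = b - s ^ 2 := ⟨_, rfl⟩
  have hu0 : 0 ≤ u := by linarith
  have huw : u + 27 / 1000 ≤ w := by linarith
  have hw1 : w ≤ 11 / 54 := by rw [hw]; linarith
  have htw : w * (1 - w) ≤ t := by rw [ht, hw]; nlinarith
  have e : (b - r ^ 2) * (2 * s) + (r ^ 2 - s ^ 2) * 1 + (b - s ^ 2) ^ 2 - (b - s ^ 2) * (2 * r) =
      (t - u) ^ 2 + u * ((2 * w - u) * (1 - 2 * w)) := by
    rw [ht, hu, hw]; ring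
  have ht1 : t ≤ 3 / 4 := by rw [ht]; nlinarith [sq_nonneg s]
  have e2 : (b - s ^ 2) * (2 * r + 1 / 10000) = (b - s ^ 2) * (2 * r) + t / 10000 := by
    rw [ht]; ring
  rw [e2]
  have h1 : t / 10000 ≤ (t - u) ^ 2 + u * ((2 * w - u) * (1 - 2 * w)) := by
    have h2 : 0 ≤ (2 * w - u) * (1 - 2 * w) := mul_nonneg (by linarith) (by linarith)
    rcases le_total u (1 / 100) with h | h
    · have h3 : 25 / 1000 ≤ t - u := by nlinarith
      have h4 := mul_nonneg hu0 h2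
      nlinarith
    · have h3 : 37 / 1000 ≤ (2 * w - u) * (1 - 2 * w) := by nlinarith
      have h4 : 1 / 100 * (37 / 1000) ≤ u * ((2 * w - u) * (1 - 2 * w)) := by
        apply mul_le_mul h h3 (by norm_num) hu0
      nlinarith [sq_nonneg (t - u)]
  linarith

/-- C -/
private lemma poly_C {a b r g h : ℝ} (ha : 0 ≤ a) (har : a ≤ r ^ 2) (hr : 33 / 100 ≤ r) (hr1 : r ≤ 473 / 1000)
    (hb0 : 3 / 4 ≤ b) (hb : b ≤ 1) (hg : 4 * a ≤ g) (hh : 4 * (1 - b) ≤ h) :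
    (b - a) * (2 * r + 1 / 10000) ≤ (b - r ^ 2) * g + (r ^ 2 - a) * h + (b - a) ^ 2 := by
  have hbr : 0 ≤ b - r ^ 2 := by nlinarith
  have h1 : (b - r ^ 2) * (4 * a) ≤ (b - r ^ 2) * g := mul_le_mul_of_nonneg_left hg hbr
  have h2 : (r ^ 2 - a) * (4 * (1 - b)) ≤ (r ^ 2 - a) * h := mul_le_mul_of_nonneg_left hh (by linarith)
  have h3 : 0 ≤ a * (6 * b - 4 * r ^ 2 - 4 + 2 * r) := by
    apply mul_nonneg ha; nlinarith
  have h4 : 1 / 10000 * b ≤ b ^ 2 - 2 * r * b + 4 * r ^ 2 * (1 - b) := by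
    nlinarith [sq_nonneg (b - 92 / 100), mul_nonneg (show 0 ≤ 473/1000 - r by linarith) (show 0 ≤ 1 - b by linarith),
      mul_nonneg (show 0 ≤ 473/1000 - r by linarith) (show 0 ≤ b - 3/4 by linarith),
      mul_nonneg (show 0 ≤ r - 33/100 by linarith) (mul_nonneg (show 0 ≤ 473/1000 - r by linarith) (show 0 ≤ 1 - b by linarith))]
  nlinarith [sq_nonneg a]

/-- OM, mean at most 249/1000 -/
private lemma poly_OM1 {a b r g h : ℝ} (ha : 0 ≤ a) (har : a ≤ r ^ 2) (hr0 : 0 ≤ r) (hr1 : r ^ 2 ≤ 249 / 1000)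
    (hb0 : 7499 / 10000 ≤ b) (hb : b ≤ 1) (hg : 4 * a ≤ g) (hh : 4 * (1 - b) - 1 / 2500 ≤ h) :
    (b - a) * (2 * r + 1 / 10000) ≤ (b - r ^ 2) * g + (r ^ 2 - a) * h + (b - a) ^ 2 := by
  have hbr : 0 ≤ b - r ^ 2 := by nlinarith
  have hr2 : r ≤ 4991 / 10000 := by nlinarith
  have h1 : (b - r ^ 2) * (4 * a) ≤ (b - r ^ 2) * g := mul_le_mul_of_nonneg_left hg hbr
  have h2 : (r ^ 2 - a) * (4 * (1 - b) - 1 / 2500) ≤ (r ^ 2 - a) * h := mul_le_mul_of_nonneg_left hh (by linarith)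
  have h3 : 0 ≤ a * (6 * b - 4 * r ^ 2 - 4 + 2 * r) := by
    apply mul_nonneg ha; nlinarith
  have h4 : 2 / 10000 ≤ b ^ 2 - 2 * r * b + 4 * r ^ 2 * (1 - b) := by
    nlinarith [sq_nonneg (b - 997 / 1000), mul_nonneg (show 0 ≤ 4991/10000 - r by linarith) (show 0 ≤ 1 - b by linarith),
      mul_nonneg (show 0 ≤ 4991/10000 - r by linarith) (show 0 ≤ b - 7499/10000 by linarith),
      mul_nonneg hr0 (mul_nonneg (show 0 ≤ 4991/10000 - r by linarith) (show 0 ≤ 1 - b by linarith))]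
  nlinarith [sq_nonneg a]

/-- OM, mean about 1/4, far from (0,1): a >= 1/40 or b <= 39/40; `G x ≤ 1`  -/
private lemma poly_OM2 {a b x g h : ℝ} (ha : 0 ≤ a) (hax : a ≤ x) (hx0 : 249 / 1000 ≤ x) (hx1 : x ≤ 2501 / 10000)
    (hb0 : 7499 / 10000 ≤ b) (hb : b ≤ 1) (hg : 4 * a - 1 / 2500 ≤ g) (hh : 4 * (1 - b) - 1 / 2500 ≤ h)
    (hab : 1 / 40 ≤ a ∨ b ≤ 39 / 40) (r : ℝ) (hr0 : 0 ≤ r) (hr : x = r ^ 2) :
    (b - a) * (min 1 (2 * r) + 1 / 10000) ≤ (b - x) * g + (x - a) * h + (b - a) ^ 2 := by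
  have hbr : 0 ≤ b - x := by linarith
  have h1 : (b - x) * (4 * a - 1 / 2500) ≤ (b - x) * g := mul_le_mul_of_nonneg_left hg hbr
  have h2 : (x - a) * (4 * (1 - b) - 1 / 2500) ≤ (x - a) * h := mul_le_mul_of_nonneg_left hh (by linarith)
  have hr1 : 498 / 1000 ≤ r := by nlinarith
  have hr2 : r ≤ 501 / 1000 := by nlinarith
  rcases le_total r (1 / 2) with h5 | h5
  · have h6 : min 1 (2 * r) ≤ 2 * r := min_le_right _ _
    have h7 : (b - a) * (min 1 (2 * r) + 1 / 10000) ≤ (b - a) * (2 * r + 1 / 10000) := by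
      apply mul_le_mul_of_nonneg_left (by linarith); linarith
    refine h7.trans ?_
    have h3 : 48 / 100 * a ≤ a * (6 * b - 4 * x - 4 + 2 * r) := by
      have : 48 / 100 ≤ 6 * b - 4 * x - 4 + 2 * r := by nlinarith
      nlinarith
    have h4 : (1 - b) ^ 2 ≤ b ^ 2 - 2 * r * b + 4 * x * (1 - b) := by
      rw [hr]
      nlinarith [mul_nonneg (show 0 ≤ 1 / 2 - r by linarith) (show 0 ≤ 1 - b by linarith),
        mul_nonneg (show 0 ≤ 1 / 2 - r by linarith) (show 0 ≤ b - 7499/10000 by linarith),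
        mul_nonneg (mul_nonneg (show 0 ≤ 1 / 2 - r by linarith) (show 0 ≤ 1 - b by linarith)) hr0]
    rcases hab with h | h
    · nlinarith [sq_nonneg a, sq_nonneg (1 - b)]
    · nlinarith [sq_nonneg a, sq_nonneg (1 - b)]
  · have h6 : min 1 (2 * r) ≤ 1 := min_le_left _ _
    have h7 : (b - a) * (min 1 (2 * r) + 1 / 10000) ≤ (b - a) * (1 + 1 / 10000) := by
      apply mul_le_mul_of_nonneg_left (by linarith); linarith
    refine h7.trans ?_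
    have hx : 1 / 4 ≤ x := by rw [hr]; nlinarith
    have h3 : 48 / 100 * a ≤ a * (6 * b - 4 * x - 4 + 1) := by
      have : 48 / 100 ≤ 6 * b - 4 * x - 4 + 1 := by nlinarith
      nlinarith
    have h4 : (1 - b) ^ 2 ≤ b ^ 2 - b + 4 * x * (1 - b) := by
      nlinarith [mul_nonneg (show 0 ≤ x - 1 / 4 by linarith) (show 0 ≤ 1 - b by linarith)]
    rcases hab with h | h
    · nlinarith [sq_nonneg a, sq_nonneg (1 - b)]
    · nlinarith [sq_nonneg a, sq_nonneg (1 - b)]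

/-- OM, mean about 1/4, near (0,1)  -/
private lemma poly_OM3 {a b x g h : ℝ} (ha : 0 ≤ a) (hax : a ≤ 1 / 40) (hx0 : 249 / 1000 ≤ x) (hx1 : x ≤ 2501 / 10000)
    (hb0 : 39 / 40 ≤ b) (hb : b ≤ 1) (hg : 10 * a ≤ g) (hh : 10 * (1 - b) ≤ h) :
    (b - a) * (1 + 6 * a + 6 / 5 * (1 - b)) ≤ (b - x) * g + (x - a) * h + (b - a) ^ 2 := by
  have hbr : 0 ≤ b - x := by linarith
  have h1 : (b - x) * (10 * a) ≤ (b - x) * g := mul_le_mul_of_nonneg_left hg hbr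
  have h2 : (x - a) * (10 * (1 - b)) ≤ (x - a) * h := mul_le_mul_of_nonneg_left hh (by linarith)
  nlinarith [mul_nonneg ha (show 0 ≤ 3 * b - 10 * x + 7 * a by linarith),
    mul_nonneg (show 0 ≤ 1 - b by linarith) (show 0 ≤ 10 * x - 39/5 * a - 11 / 5 * b by linarith)]

/-- near-trivial: D - 5/2 D^2 -/
private lemma poly_near {s t r : ℝ} (hs : 8 / 27 ≤ s) (hsr : s ≤ r) (hrt : r ≤ t) (hr : 33 / 100 ≤ r) :
    (t ^ 2 - s ^ 2) * (2 * r + (t ^ 2 - s ^ 2) - 5 / 2 * (t ^ 2 - s ^ 2) ^ 2) ≤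
      (t ^ 2 - r ^ 2) * (2 * s) + (r ^ 2 - s ^ 2) * (2 * t) + (t ^ 2 - s ^ 2) ^ 2 := by
  obtain ⟨d, hd⟩ : ∃ d, d = t - s := ⟨_, rfl⟩
  obtain ⟨e, he⟩ : ∃ e, e = t + s := ⟨_, rfl⟩
  have hd0 : 0 ≤ d := by linarith
  have he0 : 62 / 100 ≤ e := by linarith
  have h1 : t ^ 2 - s ^ 2 = d * e := by rw [hd, he]; ring
  have h2 : (t ^ 2 - r ^ 2) * (2 * s) + (r ^ 2 - s ^ 2) * (2 * t) - (t ^ 2 - s ^ 2) * (2 * r) =
      - (2 * d * ((r - s) * (t - r))) := by rw [hd]; ring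
  have h3 : (r - s) * (t - r) ≤ d ^ 2 / 4 := by
    rw [hd]; nlinarith [sq_nonneg ((r - s) - (t - r))]
  have h4 : 1 / 5 * d ^ 3 ≤ (d * e) ^ 3 := by
    have : (62 / 100 : ℝ) ^ 3 ≤ e ^ 3 := pow_le_pow_left₀ (by norm_num) he0 3
    have h5 : 1 / 5 * d ^ 3 ≤ e ^ 3 * d ^ 3 := mul_le_mul_of_nonneg_right (by norm_num at this ⊢; linarith) (by positivity)
    nlinarith
  have h6 : 2 * d * ((r - s) * (t - r)) ≤ 2 * d * (d ^ 2 / 4) := mul_le_mul_of_nonneg_left h3 (by linarith)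
  have e1 : (t ^ 2 - s ^ 2) * (2 * r + (t ^ 2 - s ^ 2) - 5 / 2 * (t ^ 2 - s ^ 2) ^ 2) =
    (t ^ 2 - s ^ 2) * (2 * r) + (t ^ 2 - s ^ 2) ^ 2 - 5 / 2 * (t ^ 2 - s ^ 2) ^ 3 := by ring
  rw [e1]
  have e2 : (t ^ 2 - s ^ 2) ^ 3 = (d * e) ^ 3 := by rw [h1]
  rw [e2]
  have e3 : 2 * d * (d ^ 2 / 4) = 1 / 2 * d ^ 3 := by ring
  linarith

/-! ### The inequalities for tuples -/

/-- From the chord inequality to the cost of a tuple. -/
private lemma cost_of {m : ℕ} (x : Fin m → ℝ) {a b X K : ℝ} (ha : 0 ≤ a) (hb : b ≤ 1)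
    (hab : a < b) (hx : ∀ i, a ≤ x i ∧ x i ≤ b) (hX : ∑ i, x i = m * X)
    (h : (b - a) * K ≤ (b - X) * G a + (X - a) * G b + (b - a) ^ 2) :
    m * K ≤ ∑ i, G (x i) + m * (b - a) := by
  have h1 := chord_sum x ha hb hx hX
  have hd : 0 < b - a := by linarith
  have h2 : (m : ℝ) * ((b - a) * K) ≤ m * ((b - X) * G a + (X - a) * G b + (b - a) ^ 2) :=
    mul_le_mul_of_nonneg_left h (Nat.cast_nonneg m)
  have h3 : (b - a) * (m * K) ≤ (b - a) * (∑ i, G (x i) + m * (b - a)) := by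
    nlinarith
  exact le_of_mul_le_mul_left h3 hd

/-- Macroscopic slack in zone one. -/
theorem macro_zone {m : ℕ} (hm : 1 ≤ m) (x : Fin m → ℝ) {a b r : ℝ} (ha : 0 ≤ a) (hb : b ≤ 1)
    (hx : ∀ i, a ≤ x i ∧ x i ≤ b) (hX : ∑ i, x i = m * r ^ 2) (hr : 33 / 100 ≤ r)
    (hr1 : r ≤ 473 / 1000)
    (hcase : (b ≤ 1 / 4 ∧ a ≤ 64 / 729) ∨ (1 / 4 ≤ b ∧ b ≤ 3 / 4 ∧ 1 / 100 ≤ a) ∨ 3 / 4 ≤ b) :
    m * (2 * r + 1 / 10000) ≤ ∑ i, G (x i) + m * (b - a) := by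
  obtain ⟨har, hrb⟩ := mean_bounds hm x hx hX
  have hr2 : 1089 / 10000 ≤ r ^ 2 := by nlinarith
  have hr3 : r ^ 2 ≤ 224 / 1000 := by nlinarith
  rcases hcase with ⟨h1, h2⟩ | ⟨h1, h2, h3⟩ | h1
  · obtain ⟨β, hβ0, hβ⟩ : ∃ β : ℝ, 0 ≤ β ∧ β ^ 2 = b := ⟨Real.sqrt b, Real.sqrt_nonneg b, Real.sq_sqrt (by linarith)⟩
    have hβr : r ≤ β := by
      rw [← hβ] at hrb; exact le_of_sq_le_sq hrb hβ0
    have hβ1 : β ≤ 1 / 2 := by nlinarith
    apply cost_of x ha hb (by linarith) hx hX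
    have h5 := G_sq (r := β) (by linarith) hβ1
    rw [← hβ, h5]
    exact poly_A2 h2 hr hβr hβ1 (G_ge_chord ha h2)
  · apply cost_of x ha hb (by linarith) hx hX
    rw [G_one_of h1 h2]
    rcases le_total a (64 / 729) with h4 | h4
    · exact poly_B1 h3 h4 hr hr1 h2 (G_ge_chord ha h4) (G_le_small ha h4)
    · obtain ⟨s, hs0, hs⟩ : ∃ s : ℝ, 0 ≤ s ∧ s ^ 2 = a := ⟨Real.sqrt a, Real.sqrt_nonneg a, Real.sq_sqrt ha⟩
      have hsr : s ≤ r := by
        rw [← hs] at har; exact le_of_sq_le_sq har (by linarith)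
      have hs1 : 8 / 27 ≤ s := by
        rw [← hs] at h4
        exact le_of_sq_le_sq (by norm_num; linarith) hs0
      have h5 := G_sq (r := s) hs1 (by linarith)
      rw [← hs, h5]
      exact poly_B1' hs1 hsr hr1 h1 h2
  · apply cost_of x ha hb (by linarith) hx hX
    exact poly_C ha har hr hr1 h1 hb (G_ge_four ha (by linarith)) (G_ge_four' h1 hb)

/-- The near-trivial tuples, coarse form. -/
theorem near_zone {m : ℕ} (hm : 1 ≤ m) (x : Fin m → ℝ) {a b r : ℝ} (ha : 64 / 729 ≤ a) (hb : b ≤ 1 / 4)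
    (hx : ∀ i, a ≤ x i ∧ x i ≤ b) (hX : ∑ i, x i = m * r ^ 2) (hr : 33 / 100 ≤ r) (hab : a < b) :
    m * (2 * r + (b - a) - 5 / 2 * (b - a) ^ 2) ≤ ∑ i, G (x i) + m * (b - a) := by
  obtain ⟨har, hrb⟩ := mean_bounds hm x hx hX
  have ha0 : 0 ≤ a := by linarith
  have hb0 : 0 ≤ b := by linarith
  obtain ⟨β, hβ0, hβ⟩ : ∃ β : ℝ, 0 ≤ β ∧ β ^ 2 = b := ⟨Real.sqrt b, Real.sqrt_nonneg b, Real.sq_sqrt hb0⟩
  obtain ⟨s, hs0, hs⟩ : ∃ s : ℝ, 0 ≤ s ∧ s ^ 2 = a := ⟨Real.sqrt a, Real.sqrt_nonneg a, Real.sq_sqrt ha0⟩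
  have hβr : r ≤ β := by
    rw [← hβ] at hrb; exact le_of_sq_le_sq hrb hβ0
  have hβ1 : β ≤ 1 / 2 := by nlinarith
  have hsr : s ≤ r := by
    rw [← hs] at har; exact le_of_sq_le_sq har (by linarith)
  have hs1 : 8 / 27 ≤ s := by
    rw [← hs] at ha
    exact le_of_sq_le_sq (by norm_num; linarith) hs0
  apply cost_of x ha0 (by linarith) hab hx hX
  rw [← hs, ← hβ, G_sq hs1 (by linarith), G_sq (r := β) (by linarith) hβ1]
  exact poly_near hs1 hsr hβr hr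

/-- Tuples with a small smallest element. -/
theorem lo_zone {m : ℕ} (hm : 2500 ≤ m) (x : Fin m → ℝ) {a b r : ℝ} (ha : 0 ≤ a) (ha1 : a ≤ 1 / 100)
    (hb0 : 1 / 4 ≤ b) (hb : b ≤ 3 / 4)
    (hx : ∀ i, a ≤ x i ∧ x i ≤ b) (hX : ∑ i, x i = m * r ^ 2) (hr : 33 / 100 ≤ r)
    (hr1 : r ≤ 473 / 1000) :
    m * (2 * r) + 1 / 2 ≤ ∑ i, G (x i) + m * (b - a) ∨
      ((m : ℝ) / 4 ≤ (univ.filter fun i => x i ≤ 1 / 40).card ∧
        ∑ i ∈ univ.filter (fun i => x i ≤ 1 / 40), x i ≤ 1 / 4 ∧ r - 1 / 50 ≤ b ∧ b ≤ r + 1 / 50) := by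
  classical
  have hmR : (2500 : ℝ) ≤ m := by exact_mod_cast hm
  set A := univ.filter fun i => x i ≤ 1 / 40 with hA
  set B := univ.filter fun i => ¬ (x i ≤ 1 / 40) with hB
  have dec : ∀ f : Fin m → ℝ, ∑ i, f i = ∑ i ∈ A, f i + ∑ i ∈ B, f i := fun f =>
    (Finset.sum_filter_add_sum_filter_not univ _ f).symm
  have hcard : (m : ℝ) = A.card + B.card := by
    have := dec (fun _ => (1 : ℝ))
    simpa using this
  have hGb := G_one_of hb0 hb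
  have hG40 := G_ge_ten (x := 1 / 40) (by norm_num) le_rfl
  obtain ⟨S, hS⟩ : ∃ S, S = ∑ i ∈ A, x i := ⟨_, rfl⟩
  have hS0 : (A.card : ℝ) * a ≤ S := by
    rw [hS]
    have := card_nsmul_le_sum A x a fun i _ => (hx i).1
    rwa [nsmul_eq_mul] at this
  have hSB : 0 ≤ ∑ i ∈ B, x i := sum_nonneg fun i _ => ha.trans (hx i).1
  have hdx := dec x
  rw [hX, ← hS] at hdx
  have hAG : (1 + 6 * b) * S ≤ b * ∑ i ∈ A, G (x i) := by
    rw [hS, mul_sum, mul_sum]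
    refine sum_le_sum fun i hi => ?_
    have h1 := G_ge_ten (ha.trans (hx i).1) (mem_filter.1 hi).2
    have h2 : b * (10 * x i) ≤ b * G (x i) := mul_le_mul_of_nonneg_left h1 (by linarith)
    have h3 : 0 ≤ (4 * b - 1) * x i := mul_nonneg (by linarith) (ha.trans (hx i).1)
    nlinarith
  have hBG : ∑ i ∈ B, x i + 3 / 20 * (B.card * b - ∑ i ∈ B, x i) ≤ b * ∑ i ∈ B, G (x i) := by
    have e : ∑ i ∈ B, x i + 3 / 20 * (B.card * b - ∑ i ∈ B, x i) =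
        ∑ i ∈ B, (x i + 3 / 20 * (b - x i)) := by
      rw [sum_add_distrib, ← mul_sum, sum_sub_distrib, sum_const, nsmul_eq_mul]
    rw [e, mul_sum]
    refine sum_le_sum fun i hi => ?_
    have h0 : 1 / 40 ≤ x i := (not_le.1 (mem_filter.1 hi).2).le
    have h1 := G_conc3 (u := 1 / 40) (v := x i) (w := b) (by norm_num) h0 (hx i).2 (by linarith)
    rw [hGb] at h1
    have h2 : 0 ≤ b - x i := by linarith [(hx i).2]
    have h3 : (b - x i) * (1 / 4) ≤ (b - x i) * G (1 / 40) := by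
      apply mul_le_mul_of_nonneg_left _ h2; linarith
    have h4 : 0 < b - 1 / 40 := by linarith
    have h5 : (b - 1 / 40) * (x i + 3 / 20 * (b - x i)) ≤ (b - 1 / 40) * (b * G (x i)) := by
      have h6 : b * ((b - x i) * (1 / 4) + (x i - 1 / 40)) ≤ b * ((b - 1 / 40) * G (x i)) := by
        apply mul_le_mul_of_nonneg_left _ (by linarith); linarith
      have h7 : 0 ≤ (b - x i) * (b / 10 - 17 / 800) := mul_nonneg h2 (by linarith)
      nlinarith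
    exact le_of_mul_le_mul_left h5 h4
  have hdG := dec (fun i => G (x i))
  rw [hdG]
  have hb1 : 0 < b := by linarith
  rcases le_or_gt ((m : ℝ) / 4) A.card with hn | hn
  · -- many small elements
    have hma : (m : ℝ) * a ≤ 4 * S := by nlinarith
    have hBx : 0 ≤ B.card * b - ∑ i ∈ B, x i := by
      have := sum_le_card_nsmul B x b fun i _ => (hx i).2
      rw [nsmul_eq_mul] at this
      linarith
    have hkey : b * (m * (2 * r)) + m * (b - r) ^ 2 + 2 * b * S ≤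
        b * (∑ i ∈ A, G (x i) + ∑ i ∈ B, G (x i) + m * (b - a)) := by
      have h1 : b * (m * a) ≤ b * (4 * S) := mul_le_mul_of_nonneg_left hma hb1.le
      nlinarith
    have hS1 : 0 ≤ S := le_trans (by positivity) hS0
    by_cases h2 : S ≤ 1 / 4
    · by_cases h3 : r - 1 / 50 ≤ b ∧ b ≤ r + 1 / 50
      · right
        exact ⟨hn, by rw [← hS]; exact h2, h3.1, h3.2⟩
      · left
        have h4 : 1 / 2500 ≤ (b - r) ^ 2 := by
          rcases le_or_gt (r - 1 / 50) b with h5 | h5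
          · have h6 : r + 1 / 50 < b := by
              by_contra h7; exact h3 ⟨h5, by linarith⟩
            nlinarith
          · nlinarith
        have h5 : b * (m * (2 * r) + 1 / 2) ≤
            b * (∑ i ∈ A, G (x i) + ∑ i ∈ B, G (x i) + m * (b - a)) := by
          have h6 : (1 : ℝ) ≤ m * (b - r) ^ 2 := by nlinarith
          nlinarith [mul_nonneg hb1.le hS1]
        exact le_of_mul_le_mul_left h5 hb1
    · left
      push Not at h2
      have h5 : b * (m * (2 * r) + 1 / 2) ≤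
          b * (∑ i ∈ A, G (x i) + ∑ i ∈ B, G (x i) + m * (b - a)) := by
        have h6 : (0 : ℝ) ≤ m * (b - r) ^ 2 := by positivity
        nlinarith [mul_lt_mul_of_pos_left h2 hb1]
      exact le_of_mul_le_mul_left h5 hb1
  · -- few small elements
    left
    have hBc : 3 / 4 * (m : ℝ) ≤ B.card := by linarith
    have hS1 : 0 ≤ S := le_trans (by positivity) hS0
    have h5 : b * (m * (2 * r) + 1 / 2) ≤
        b * (∑ i ∈ A, G (x i) + ∑ i ∈ B, G (x i) + m * (b - a)) := by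
      have h6 : 3 / 4 * (m : ℝ) * b ≤ B.card * b := mul_le_mul_of_nonneg_right hBc hb1.le
      have h7 : b * (m * a) ≤ b * (m * (1 / 100)) := by
        apply mul_le_mul_of_nonneg_left _ hb1.le
        apply mul_le_mul_of_nonneg_left ha1 (by linarith)
      have h8 : b / 100 + 1 / 5000 ≤ (b - r) ^ 2 + 3 / 20 * (3 / 4 * b - r ^ 2) := by
        nlinarith [sq_nonneg (b - r + 46 / 1000)]
      have h9 : (m : ℝ) * (b / 100 + 1 / 5000) ≤ m * ((b - r) ^ 2 + 3 / 20 * (3 / 4 * b - r ^ 2)) :=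
        mul_le_mul_of_nonneg_left h8 (by linarith)
      have h10 : 0 ≤ b * S := mul_nonneg hb1.le hS1
      nlinarith
    exact le_of_mul_le_mul_left h5 hb1

/-- The macroscopic part of the monotonicity lemma. -/
theorem om_macro {m : ℕ} (hm : 1 ≤ m) (x : Fin m → ℝ) {a b X : ℝ} (ha : 0 ≤ a) (hb : b ≤ 1)
    (hb0 : 7499 / 10000 ≤ b)
    (hx : ∀ i, a ≤ x i ∧ x i ≤ b) (hX : ∑ i, x i = m * X) (hX1 : X ≤ 2501 / 10000) :
    m * (G X + 1 / 10000) ≤ ∑ i, G (x i) + m * (b - a) ∨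
      (249 / 1000 ≤ X ∧ a ≤ 1 / 40 ∧ 39 / 40 ≤ b ∧
        m * (1 + 6 * a + 6 / 5 * (1 - b)) ≤ ∑ i, G (x i) + m * (b - a)) := by
  obtain ⟨har, hrb⟩ := mean_bounds hm x hx hX
  have hX0 : 0 ≤ X := by linarith
  have hab : a < b := by linarith
  obtain ⟨r, hr0, hr⟩ : ∃ r : ℝ, 0 ≤ r ∧ r ^ 2 = X := ⟨Real.sqrt X, Real.sqrt_nonneg X, Real.sq_sqrt hX0⟩
  have hGX : G X ≤ min 1 (2 * r) := by
    apply le_min (G_le_one hX0 (by linarith))
    rw [← hr]; exact G_sq_le hr0 (by nlinarith)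
  have hGa : 4 * a - 1 / 2500 ≤ G a := by
    rcases le_total a (1 / 4) with h | h
    · linarith [G_ge_four ha h]
    · rw [G_one_of h (by linarith)]; linarith
  have hGb : 4 * (1 - b) - 1 / 2500 ≤ G b := by
    rcases le_total (3 / 4) b with h | h
    · linarith [G_ge_four' h hb]
    · rw [G_one_of (by linarith) h]; linarith
  have hmono : ∀ K L : ℝ, K ≤ L → (m : ℝ) * (K + 1 / 10000) ≤ m * (L + 1 / 10000) := fun K L h =>
    mul_le_mul_of_nonneg_left (by linarith) (Nat.cast_nonneg m)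
  rcases le_total X (249 / 1000) with h1 | h1
  · left
    refine (hmono _ _ (hGX.trans (min_le_right _ _))).trans (cost_of x ha hb hab hx hX ?_)
    rw [← hr]
    have hGa4 : 4 * a ≤ G a := G_ge_four ha (by linarith)
    exact poly_OM1 ha (by rw [hr]; exact har) hr0 (by rw [hr]; exact h1) hb0 hb hGa4 hGb
  · by_cases h2 : 1 / 40 ≤ a ∨ b ≤ 39 / 40
    · left
      refine (hmono _ _ hGX).trans (cost_of x ha hb hab hx hX ?_)
      exact poly_OM2 ha har h1 hX1 hb0 hb hGa hGb h2 r hr0 hr.symm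
    · push Not at h2
      right
      refine ⟨h1, h2.1.le, h2.2.le, cost_of x ha hb hab hx hX ?_⟩
      refine poly_OM3 ha h2.1.le h1 hX1 h2.2.le hb (G_ge_ten ha h2.1.le) ?_
      rw [← G_symm b]
      exact G_ge_ten (by linarith) (by linarith [h2.2])

end Pool.Agent.H14.Z1
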